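import Pool.Agent.W603.CX.AllMaps

/-! Algebraic hyperbolicity of projective varieties given by few monomials that are high powers. -/

set_option autoImplicit false

open FF MvPolynomial Pool.Agent.W603.LV Pool.Agent.W603.PV

namespace Pool.Agent.W603.CX

universe u v

variable {k : Type u} [Field k] {n : ℕ} {ι : Type v}

/-- Every morphism `t ↦ (x_0 t ^ b_0 : … : x_n t ^ b_n)` from the multiplicative group to the
projective variety `X` with the equations `F i = 0` is constant. -/
def OrbitsConstant (F : ι → MvPolynomial (Fin (n + 1)) k) : Prop :=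
  ∀ (x : Fin (n + 1) → k) (b : Fin (n + 1) → ℤ),
    (∀ t : k, t ≠ 0 → ∀ i, eval (fun j => x j * t ^ b j) (F i) = 0) →
      ∀ j l, x j ≠ 0 → x l ≠ 0 → b j = b l

/-- The projective variety `X` with the equations `F i = 0` is algebraically hyperbolic, with the
constant `A`: the degree of every morphism `f` from a smooth projective curve (with function
field `K`) to `X` is at most `A max (2 g - 2, 0)`. -/
def AlgHyperbolic (A : ℕ) (F : ι → MvPolynomial (Fin (n + 1)) k) : Prop :=
  ∀ (K : Type u) [Field K] [Algebra k K] [IsFF k K] (f : Fin (n + 1) → K), (∃ j, f j ≠ 0) →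
    (∀ i, aeval f (F i) = 0) → pht k f ≤ A * max (canDeg k K) 0

/-- For every smooth projective curve (with function field `K`) the degrees of the morphisms to the
projective variety `X` with the equations `F i = 0` are bounded. -/
def BoundedOnCurves (F : ι → MvPolynomial (Fin (n + 1)) k) : Prop :=
  ∀ (K : Type u) [Field K] [Algebra k K] [IsFF k K], ∃ B : ℤ, ∀ f : Fin (n + 1) → K,
    (∃ j, f j ≠ 0) → (∀ i, aeval f (F i) = 0) → pht k f ≤ B

theorem groupless_tfae {n : ℕ} {ι : Type v} [Finite ι] (T : ι → Finset (Fin (n + 1) →₀ ℕ))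
    (hT : ∀ i, ∃ N : ℕ, 0 < N ∧ ((T i).card - 1) ^ 2 ≤ N ∧ ∀ α ∈ T i, ∀ j, N ∣ α j) :
    ∃ A : ℕ, ∀ (k : Type u) [Field k] [IsAlgClosed k] [CharZero k]
      (F : ι → MvPolynomial (Fin (n + 1)) k), (∀ i, (F i).support ⊆ T i) →
      (∀ i, ∃ d, (F i).IsHomogeneous d) →
      [OrbitsConstant F, AlgHyperbolic A F, BoundedOnCurves F].TFAE := by
  obtain ⟨A, hA⟩ := all_maps.{u, v, u} (∅ : Set (Fin (n + 1))) T (fun i => by
    obtain ⟨N, h0, h1, h2⟩ := hT i
    exact ⟨N, h0, h1, fun α hα j _ => h2 α hα j⟩)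
  refine ⟨A, ?_⟩
  intro k _ _ _ F hFT hFh
  have hmap : ∀ (K : Type u) [Field K] [Algebra k K] (S : Finset (Place k K))
      (f : Fin (n + 1) → K), (∃ j, f j ≠ 0) → (∀ i, aeval f (F i) = 0) →
      IsMap (∅ : Set (Fin (n + 1))) F S f := fun K _ _ S f h0 h1 =>
    ⟨h0, h1, fun j hj => absurd hj (Set.notMem_empty j)⟩
  have horb : OrbitsConstant F ↔ ¬ HasOrbit (∅ : Set (Fin (n + 1))) F := by
    constructor
    · rintro h ⟨x, b, hxb, j, l, hj, hl, hne⟩
      exact hne (h x b (fun t ht i => (hxb t ht).2.2 i) j l hj hl)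
    · intro h x b hxb j l hj hl
      by_contra hne
      refine h ⟨x, b, fun t ht => ⟨?_, ?_, fun i => hxb t ht i⟩, j, l, hj, hl, hne⟩
      · exact Function.ne_iff.2 ⟨j, mul_ne_zero hj (zpow_ne_zero _ ht)⟩
      · exact fun j hj => absurd hj (Set.notMem_empty j)
  tfae_have 1 → 2 := by
    intro h K _ _ _ f h0 h1
    have := hA k F hFT hFh (horb.1 h) K ∅ f (hmap K ∅ f h0 h1)
    simpa using this
  tfae_have 2 → 3 := fun h K _ _ _ => ⟨_, fun f h0 h1 => h K f h0 h1⟩
  tfae_have 3 → 1 := by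
    intro h
    rw [horb]
    intro ho
    obtain ⟨B, hB⟩ := h (RatFunc k)
    obtain ⟨f, hf, hlt⟩ := unbounded_orbit ho B
    exact absurd (hB f hf.1 hf.2.1) (not_le.2 hlt)
  tfae_finish

end Pool.Agent.W603.CX
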