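import Pool.Agent.W603.CX.LineSpec
import Pool.Agent.W603.CX.Groupless

/-! Algebraic hyperbolicity of projective varieties given by sums of few powers of linear forms. -/

set_option autoImplicit false

open FF MvPolynomial Pool.Agent.W603.LV Pool.Agent.W603.PV

namespace Pool.Agent.W603.CX

universe u v w z

variable {k : Type u} [Field k] {n : ℕ} {ι : Type v}

/-- The projective variety with the equations `F i = 0` contains a line. -/
def ContainsLine (F : ι → MvPolynomial (Fin (n + 1)) k) : Prop :=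
  ∃ x v : Fin (n + 1) → k, (∃ j l, v j * x l ≠ v l * x j) ∧
    ∀ (t : k) (i : ι), eval (fun a => x a + t * v a) (F i) = 0

section rigid

variable [IsAlgClosed k] [CharZero k]

theorem warSys_rigid_all {s N : ι → ℕ} (c : (i : ι) → Fin (s i) → k)
    (l : (i : ι) → Fin (s i) → Fin (n + 1) → k) (hc : ∀ i a, c i a ≠ 0) (hN0 : ∀ i, 0 < N i)
    (hN : ∀ i, (s i - 1) ^ 2 ≤ N i) {p : Ideal (MvPolynomial (Fin (n + 1)) k)} [p.IsPrime]
    (hp : ∀ i, ∑ a, C (c i a) * lin (l i a) ^ N i ∈ p)
    (hline : ¬ ContainsLine (fun i => ∑ a, C (c i a) * lin (l i a) ^ N i)) :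
    (warSys c l hc hN0 hN p hp).Rigid := by
  classical
  by_contra hE
  obtain ⟨D, R, hR, hsum, hD, j, m, hjm⟩ := exists_flow _ hE
  apply hline
  have h1 : (1 : MvPolynomial (Fin (n + 1)) k) ∉ p := fun h =>
    (inferInstance : p.IsPrime).ne_top ((Ideal.eq_top_iff_one p).2 h)
  obtain ⟨x, w, -, -, -, hxw, hF, -⟩ := specialise_line (p := p) (v := fun j => D (xi p j))
    (j := j) (l := m) hjm (Q := 1) (q := 0) (μ := 0) (by simp) h1
  refine ⟨x, w, ⟨j, m, hxw⟩, fun t i => hF _ ?_ t⟩
  refine along_eq D (hN0 i) (c i) (l i) (R i) (hR i) ?_ ?_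
  · intro a
    rw [← hsum i a]
    refine Finset.sum_congr (Finset.ext fun x => Iff.trans Finset.mem_filter
      Finset.mem_filter.symm) fun b _ => ?_
    rw [aeval_xi]; rfl
  · intro a b hab
    have := hD i a b hab
    rw [aeval_xi, aeval_xi]; exact this

end rigid

/-- A rational curve on a line has large degree. -/
theorem hgt_le_line [IsAlgClosed k] [CharZero k] {L : Type w} [Field L] [Algebra k L] [IsFF k L]
    (x v : Fin (n + 1) → k) {j l : Fin (n + 1)} (hjl : v j * x l ≠ v l * x j) {s : L}
    (hs : s ≠ 0) : hgt k s ≤ pht k (fun a => algebraMap k L (x a) + s * algebraMap k L (v a)) := by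
  classical
  obtain ⟨f, hf⟩ : ∃ f : Fin (n + 1) → L,
    f = fun a => algebraMap k L (x a) + s * algebraMap k L (v a) := ⟨_, rfl⟩
  rw [← hf]
  have hfne : ∃ j, f j ≠ 0 := by
    by_contra hcon
    push Not at hcon
    have h1 := hcon j
    have h2 := hcon l
    rw [hf] at h1 h2
    simp only at h1 h2
    apply hjl
    apply (algebraMap k L).injective
    rw [map_mul, map_mul]
    have h3 : s * (algebraMap k L (v j) * algebraMap k L (x l) -
        algebraMap k L (v l) * algebraMap k L (x j)) = 0 := by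
      linear_combination algebraMap k L (x l) * h1 - algebraMap k L (x j) * h2
    rcases mul_eq_zero.1 h3 with h | h
    · exact absurd h hs
    · exact sub_eq_zero.1 h
  obtain ⟨T1, hT1⟩ := exists_supp (k := k) (Finset.univ : Finset (Option (Fin (n + 1))))
    (fun a => Option.elim a s f)
  have hTs : ∀ P : Place k L, P.ord s ≠ 0 → P ∈ T1 := hT1 none (Finset.mem_univ _)
  have hTf : ∀ a, ∀ P : Place k L, P.ord (f a) ≠ 0 → P ∈ T1 := fun a =>
    hT1 (some a) (Finset.mem_univ _)
  have h2 : pht k f = ∑ P ∈ T1, (- pord P f) := by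
    unfold pht
    rw [finsum_eq_sum_of_support_subset (s := T1), Finset.sum_neg_distrib]
    intro P hP
    by_contra hcon
    apply hP
    obtain ⟨j, hj, h⟩ := exists_pord P hfne
    simp only
    rw [← h]
    by_contra h'; exact hcon (hTf j P h')
  rw [h2, hgt_finset _ T1 hTs]
  refine Finset.sum_le_sum fun P _ => ?_
  obtain ⟨d, hd⟩ : ∃ d : k, d = v j * x l - v l * x j := ⟨_, rfl⟩
  have hd0 : d ≠ 0 := by rw [hd]; exact sub_ne_zero.2 hjl
  have key : ∀ (a b : k) (y : L), algebraMap k L a * f j + algebraMap k L b * f l =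
      algebraMap k L d * y → y ≠ 0 → pord P f ≤ P.ord y := by
    intro a b y hy hy0
    have h3 : Ge P (pord P f) (algebraMap k L a * f j + algebraMap k L b * f l) := by
      have h4 := (Ge.const (P := P) a).mul (ge_pord P f j)
      have h5 := (Ge.const (P := P) b).mul (ge_pord P f l)
      rw [zero_add] at h4 h5
      exact h4.add h5
    rw [hy] at h3
    have h6 := h3.resolve_left (mul_ne_zero (by rw [Ne, map_eq_zero]; exact hd0) hy0)
    rwa [P.ord_mul (by rw [Ne, map_eq_zero]; exact hd0) hy0, P.ord_const hd0, zero_add] at h6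
  have h3 := key (x l) (-x j) s (by
    rw [hf, hd]
    simp only [map_neg, map_sub, map_mul]
    ring) hs
  have h4 := key (-v l) (v j) 1 (by
    rw [hf, hd]
    simp only [map_neg, map_sub, map_mul]
    ring) one_ne_zero
  rw [P.ord_one] at h4
  refine max_le ?_ ?_ <;> omega

/-- Maps of unbounded degree to a variety that contains a line. -/
theorem unbounded_line [IsAlgClosed k] [CharZero k] {F : ι → MvPolynomial (Fin (n + 1)) k}
    (h : ContainsLine F) (B : ℤ) : ∃ f : Fin (n + 1) → RatFunc k, (∃ j, f j ≠ 0) ∧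
      (∀ i, aeval f (F i) = 0) ∧ B < pht k f := by
  classical
  have hinf : Infinite k := inferInstance
  obtain ⟨x, v, ⟨j, l, hjl⟩, hF⟩ := h
  obtain ⟨T, hTd⟩ : ∃ T : RatFunc k, T = RatFunc.X := ⟨_, rfl⟩
  have hTt : Transcendental k T := hTd ▸ RatFunc.transcendental_X
  have hT0 : T ≠ 0 := by rw [hTd]; exact RatFunc.X_ne_zero
  have hT1 : 1 ≤ hgt k T := by
    by_contra hcon
    obtain ⟨c, hc⟩ := const_of_hgt (k := k) (f := T) (by omega)
    exact hTt (hc ▸ isAlgebraic_algebraMap c)
  obtain ⟨s, hs⟩ : ∃ s : RatFunc k, s = T ^ ((B + 1).toNat + 1) := ⟨_, rfl⟩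
  have hs0 : s ≠ 0 := by rw [hs]; exact pow_ne_zero _ hT0
  have hlt : B < hgt k s := by
    rw [hs, hgt_pow hT0]
    have h1 : (((B + 1).toNat + 1 : ℕ) : ℤ) * 1 ≤ (((B + 1).toNat + 1 : ℕ) : ℤ) * hgt k T :=
      mul_le_mul_of_nonneg_left hT1 (by positivity)
    refine lt_of_lt_of_le ?_ h1
    push_cast
    omega
  have hle := hgt_le_line (L := RatFunc k) x v hjl hs0
  refine ⟨_, ?_, ?_, lt_of_lt_of_le hlt hle⟩
  · by_contra hcon
    push Not at hcon
    have h1 := hcon j
    have h2 := hcon l
    apply hjl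
    apply (algebraMap k (RatFunc k)).injective
    rw [map_mul, map_mul]
    have h3 : s * (algebraMap k (RatFunc k) (v j) * algebraMap k (RatFunc k) (x l) -
        algebraMap k (RatFunc k) (v l) * algebraMap k (RatFunc k) (x j)) = 0 := by
      linear_combination algebraMap k (RatFunc k) (x l) * h1 - algebraMap k (RatFunc k) (x j) * h2
    rcases mul_eq_zero.1 h3 with h | h
    · exact absurd h hs0
    · exact sub_eq_zero.1 h
  · intro i
    -- the polynomial in `t` is zero
    let P : Polynomial k :=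
      aeval (fun a => Polynomial.C (x a) + Polynomial.X * Polynomial.C (v a)) (F i)
    have hP : P = 0 := by
      apply Polynomial.eq_zero_of_infinite_isRoot
      have : {t : k | P.IsRoot t} = Set.univ := by
        ext t
        simp only [Set.mem_setOf_eq, Set.mem_univ, iff_true, Polynomial.IsRoot.def]
        have h1 := hF t i
        rw [← h1]
        have h2 : ((Polynomial.aeval t).comp (aeval (fun a => Polynomial.C (x a) +
            Polynomial.X * Polynomial.C (v a)) : MvPolynomial (Fin (n + 1)) k →ₐ[k] Polynomial k)) =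
            (aeval (fun a => x a + t * v a) : MvPolynomial (Fin (n + 1)) k →ₐ[k] k) := by
          apply MvPolynomial.algHom_ext
          intro a
          simp
          ring
        have h3 := congrArg (fun φ : MvPolynomial (Fin (n + 1)) k →ₐ[k] k => φ (F i)) h2
        exact h3
      rw [this]
      exact Set.infinite_univ
    have h2 : ((Polynomial.aeval s).comp (aeval (fun a => Polynomial.C (x a) +
        Polynomial.X * Polynomial.C (v a)) : MvPolynomial (Fin (n + 1)) k →ₐ[k] Polynomial k)) =
        (aeval (fun a => algebraMap k (RatFunc k) (x a) + s * algebraMap k (RatFunc k) (v a)) :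
          MvPolynomial (Fin (n + 1)) k →ₐ[k] RatFunc k) := by
      apply MvPolynomial.algHom_ext
      intro a
      simp
      ring
    have h3 := congrArg (fun φ : MvPolynomial (Fin (n + 1)) k →ₐ[k] RatFunc k => φ (F i)) h2
    simp only [AlgHom.comp_apply] at h3
    rw [← h3]
    change Polynomial.aeval s P = 0
    rw [hP, map_zero]

theorem lines_tfae [IsAlgClosed k] [CharZero k] [Finite ι] (F : ι → MvPolynomial (Fin (n + 1)) k)
    (hF : ∀ i, ∃ s N : ℕ, 0 < N ∧ (s - 1) ^ 2 ≤ N ∧ IsPowSum (F i) s N) :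
    [¬ ContainsLine F, ∃ A : ℕ, AlgHyperbolic A F, BoundedOnCurves F].TFAE := by
  classical
  tfae_have 1 → 2 := by
    intro hno
    choose s N hN0 hN c l hc hFs using hF
    have hFs' : F = fun i => ∑ a, C (c i a) * lin (l i a) ^ N i := funext hFs
    have hhom : ∀ i, (F i).IsHomogeneous (N i) := fun i =>
      IsPowSum.isHomogeneous ⟨c i, l i, hc i, hFs i⟩
    obtain ⟨A, hA⟩ := noeth.{u, u, v} (k := k) (Q := 1) (q := 0) (isHomogeneous_one _ _)
      (Ideal.span (Set.range F)) (fun p hFp hpp hph _ _ => by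
        have hp : ∀ i, ∑ a, C (c i a) * lin (l i a) ^ N i ∈ p := by
          intro i
          rw [← hFs i]
          exact hFp (Ideal.subset_span ⟨i, rfl⟩)
        exact ⟨ι, inferInstance, s, warSys c l hc hN0 hN p hp,
          warSys_rigid_all c l hc hN0 hN hp (hFs' ▸ hno)⟩)
      (Ideal.span (Set.range F)) le_rfl (by
        rw [isHomog_iff]
        let _ := MvPolynomial.gradedAlgebra (σ := Fin (n + 1)) (R := k)
        exact Ideal.homogeneous_span _ _ fun x hx => by
          obtain ⟨i, rfl⟩ := hx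
          exact ⟨N i, hhom i⟩)
    refine ⟨A, fun K _ _ _ f hf0 hf => ?_⟩
    have h1 := hA K f hf0 (fun H hH => by
      have h2 : Ideal.span (Set.range F) ≤
          RingHom.ker (aeval f : MvPolynomial (Fin (n + 1)) k →ₐ[k] K) := by
        rw [Ideal.span_le]
        rintro _ ⟨i, rfl⟩
        exact RingHom.mem_ker.2 (hf i)
      exact RingHom.mem_ker.1 (h2 hH)) (by rw [map_one]; exact one_ne_zero)
    have h2 : meets (k := k) (1 : MvPolynomial (Fin (n + 1)) k) 0 f = ∅ := by
      ext P
      simp only [meets, Set.mem_setOf_eq, Set.mem_empty_iff_false, iff_false, map_one, P.ord_one]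
      simp
    rw [h2, Set.ncard_empty] at h1
    simpa using h1
  tfae_have 2 → 3 := fun ⟨A, h⟩ K _ _ _ => ⟨_, fun f h0 h1 => h K f h0 h1⟩
  tfae_have 3 → 1 := by
    intro h ho
    obtain ⟨B, hB⟩ := h (RatFunc k)
    obtain ⟨f, hf0, hf, hlt⟩ := unbounded_line ho B
    exact absurd (hB f hf0 hf) (not_le.2 hlt)
  tfae_finish

end Pool.Agent.W603.CX
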