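import Pool.Agent.W603.CX.Basic

/-! Quasi-projective varieties given by few monomials that are high powers: algebraic
hyperbolicity and one-parameter groups. -/

set_option autoImplicit false

open FF MvPolynomial Pool.Agent.W603.LV Pool.Agent.W603.PV

namespace Pool.Agent.W603.CX

universe u v w z

variable {k : Type u} [Field k] {n : ℕ} {ι : Type z} (U : Set (Fin (n + 1)))
  (F : ι → MvPolynomial (Fin (n + 1)) k)

/-- Homogeneous coordinates of the points of the quasi-projective variety `X` with the equations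
`F i = 0` in the complement of the coordinate hyperplanes with index in `U` in projective `n`-space
over `k`. -/
def Pts : Set (Fin (n + 1) → k) :=
  {x | x ≠ 0 ∧ (∀ j ∈ U, x j ≠ 0) ∧ ∀ i, eval x (F i) = 0}

/-- `X` is irreducible: it is not empty and it is not the union of two proper closed subsets. -/
def Irred : Prop :=
  (Pts U F).Nonempty ∧ ∀ G H : MvPolynomial (Fin (n + 1)) k,
    (∀ x ∈ Pts U F, eval x (G * H) = 0) → (∀ x ∈ Pts U F, eval x G = 0) ∨
      (∀ x ∈ Pts U F, eval x H = 0)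

/-- The action of the one-parameter group `t ↦ diag (t ^ b 0, …, t ^ b n)` preserves `X`. -/
def Preserves (b : Fin (n + 1) → ℤ) : Prop :=
  ∀ x ∈ Pts U F, ∀ t : k, t ≠ 0 → (fun j => x j * t ^ b j) ∈ Pts U F

/-- The action of the one-parameter group `t ↦ diag (t ^ b 0, …, t ^ b n)` is trivial on `X`. -/
def ActsTrivially (b : Fin (n + 1) → ℤ) : Prop :=
  ∀ x ∈ Pts U F, ∀ t : k, t ≠ 0 → ∃ c : k, (fun j => x j * t ^ b j) = c • x

/-- The exponents of `F` in the variables with index outside `U` are divisible by some `N` that is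
large compared with the number of monomials. -/
def PowerSparse (F : MvPolynomial (Fin (n + 1)) k) : Prop :=
  ∃ N : ℕ, 0 < N ∧ (F.support.card - 1) ^ 2 ≤ N ∧ ∀ α ∈ F.support, ∀ j, j ∉ U → N ∣ α j

/-- The vector `f` of elements of the function field `L` is the vector of homogeneous coordinates
of a morphism to `X` from the smooth projective curve with function field `L`, without the points
in the finite set `S`. -/
def IsMap {L : Type w} [Field L] [Algebra k L] (S : Finset (Place k L)) (f : Fin (n + 1) → L) :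
    Prop :=
  (∃ j, f j ≠ 0) ∧ (∀ i, aeval f (F i) = 0) ∧ ∀ j ∈ U, f j ≠ 0 ∧ ∀ P ∉ S, P.ord (f j) = pord P f

variable {U F}

section ideal

variable [IsAlgClosed k]

theorem prime_of_irred (h : Irred U F) : (vanishingIdeal k (Pts U F)).IsPrime where
  ne_top' := by
    obtain ⟨x, hx⟩ := h.1
    intro htop
    have h1 : (1 : MvPolynomial (Fin (n + 1)) k) ∈ vanishingIdeal k (Pts U F) := by
      rw [htop]; trivial
    have h2 := h1 x hx
    rw [map_one] at h2
    exact one_ne_zero h2
  mem_or_mem' {G H} hGH := h.2 G H hGH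

/-- A prime ideal that contains the equations and not the units contains the ideal of `X`. -/
theorem vanishing_le {q : Ideal (MvPolynomial (Fin (n + 1)) k)} [q.IsPrime] (hF : ∀ i, F i ∈ q)
    (hU : ∀ j ∈ U, X j ∉ q) {l : Fin (n + 1)} (hl : X l ∉ q) :
    vanishingIdeal k (Pts U F) ≤ q := by
  classical
  intro H hH
  have h1 : H * ((∏ j ∈ Finset.univ.filter (· ∈ U), X j) * X l) ∈ q := by
    have hq : q.IsPrime := inferInstance
    rw [← hq.radical, ← vanishingIdeal_zeroLocus_eq_radical (K := k)]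
    intro y hy
    have hy' : ∀ p ∈ q, aeval y p = 0 := hy
    rw [map_mul, map_mul, map_prod]
    simp only [aeval_X]
    by_cases h1 : y l = 0
    · rw [h1]; ring
    by_cases h2 : ∃ j ∈ U, y j = 0
    · obtain ⟨j, hj, hj0⟩ := h2
      rw [Finset.prod_eq_zero (i := j) (by simpa using hj) hj0]
      ring
    · push Not at h2
      have h3 : y ∈ Pts U F := by
        refine ⟨fun h => h1 (by rw [h]; rfl), h2, fun i => ?_⟩
        exact hy' _ (hF i)
      rw [hH y h3, zero_mul]
  rcases Ideal.IsPrime.mem_or_mem inferInstance h1 with h | h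
  · exact h
  · exfalso
    rcases Ideal.IsPrime.mem_or_mem inferInstance h with h | h
    · obtain ⟨j, hj, hjq⟩ := (Ideal.IsPrime.prod_mem_iff (hp := inferInstance)).1 h
      exact hU j (by simpa using hj) hjq
    · exact hl h

theorem mem_vanishing (i : ι) : F i ∈ vanishingIdeal k (Pts U F) := fun _ hx => hx.2.2 i

theorem X_not_mem (h : Irred U F) {j : Fin (n + 1)} (hj : j ∈ U) :
    X j ∉ vanishingIdeal k (Pts U F) := by
  obtain ⟨x, hx⟩ := h.1
  intro h1
  have h2 := h1 x hx
  rw [aeval_X] at h2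
  exact hx.2.1 j hj h2

theorem exists_X_not_mem (h : Irred U F) : ∃ j, X j ∉ vanishingIdeal k (Pts U F) := by
  obtain ⟨x, hx⟩ := h.1
  obtain ⟨j, hj⟩ := Function.ne_iff.1 hx.1
  refine ⟨j, fun h1 => hj ?_⟩
  have h2 := h1 x hx
  rwa [aeval_X] at h2

theorem vanishing_min (h : Irred U F) :
    vanishingIdeal k (Pts U F) ∈ (Ideal.span (Set.range F)).minimalPrimes := by
  refine ⟨⟨prime_of_irred h, ?_⟩, ?_⟩
  · rw [Ideal.span_le]
    rintro _ ⟨i, rfl⟩
    exact mem_vanishing i
  · rintro q ⟨hq, hFq⟩ hle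
    obtain ⟨l, hl⟩ := exists_X_not_mem h
    exact vanishing_le (fun i => hFq (Ideal.subset_span ⟨i, rfl⟩))
      (fun j hj hjq => X_not_mem h hj (hle hjq)) (fun hlq => hl (hle hlq))

/-- A vector of functions that satisfies the equations satisfies all equations of `X`. -/
theorem aeval_vanishing {L : Type w} [Field L] [Algebra k L] {f : Fin (n + 1) → L}
    (hf0 : ∃ j, f j ≠ 0) (hf : ∀ i, aeval f (F i) = 0) (hfU : ∀ j ∈ U, f j ≠ 0)
    {H : MvPolynomial (Fin (n + 1)) k} (hH : H ∈ vanishingIdeal k (Pts U F)) : aeval f H = 0 := by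
  obtain ⟨l, hl⟩ := hf0
  have : (RingHom.ker (aeval f : MvPolynomial (Fin (n + 1)) k →ₐ[k] L)).IsPrime :=
    RingHom.ker_isPrime _
  have h1 := vanishing_le (U := U) (F := F)
    (q := RingHom.ker (aeval f : MvPolynomial (Fin (n + 1)) k →ₐ[k] L)) (l := l)
    (fun i => by rw [RingHom.mem_ker]; exact hf i)
    (fun j hj h => hfU j hj (by rw [RingHom.mem_ker, aeval_X] at h; exact h))
    (fun h => hl (by rw [RingHom.mem_ker, aeval_X] at h; exact h))
  exact RingHom.mem_ker.1 (h1 hH)

theorem preserves_of_stable {b : Fin (n + 1) → ℤ}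
    (hb : Stable (vanishingIdeal k (Pts U F)) b) : Preserves U F b := by
  classical
  intro x hx t ht
  refine ⟨?_, ?_, ?_⟩
  · obtain ⟨l, hl⟩ := Function.ne_iff.mp hx.1
    exact Function.ne_iff.mpr ⟨l, mul_ne_zero hl (zpow_ne_zero _ ht)⟩
  · exact fun j hj => mul_ne_zero (hx.2.1 j hj) (zpow_ne_zero _ ht)
  · intro i
    apply eval_laurent_zero _ _ _ _ ht
    intro v
    have h1 := hb (F i) (mem_vanishing i) v x hx
    rw [weightedHomogeneousComponent_apply, map_sum] at h1
    rw [eval_sub', ← h1]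
    refine Finset.sum_congr ?_ fun α _ => ?_
    · ext α
      rw [Finset.mem_filter, Finset.mem_filter]
      have h2 : Finsupp.weight b α = ∑ j, (α j : ℤ) * b j := by
        rw [Finsupp.weight_apply, Finsupp.sum_fintype _ _ (by simp)]
        refine Finset.sum_congr rfl fun l _ => ?_
        rw [nsmul_eq_mul]
      rw [h2]
    · rw [aeval_monomial, Finsupp.prod_fintype _ _ (fun j => pow_zero _)]
      rfl

end ideal

theorem two_zpow_ne [CharZero k] {m : ℤ} (h : (2 : k) ^ m = 1) : m = 0 := by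
  have h0 : (2 : k) ^ m = ((2 : ℚ) ^ m : ℚ) := by push_cast; rfl
  rw [h0] at h
  have h1 : ((2 : ℚ) ^ m : ℚ) = 1 := by exact_mod_cast h
  by_contra hm
  have h2 := zpow_right_injective₀ (a := (2 : ℚ)) (by norm_num) (by norm_num)
    (show (2 : ℚ) ^ m = (2 : ℚ) ^ (0 : ℤ) by rw [h1, zpow_zero])
  exact hm h2

/-- A linear bound for the degree in terms of the Euler characteristic, outside a proper closed
subset, for varieties without nontrivial one-parameter groups. -/
theorem bound_of_trivial [IsAlgClosed k] [CharZero k] [Finite ι]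
    (hF : ∀ i, ∃ d, (F i).IsHomogeneous d) (hC : ∀ i, PowerSparse U (F i)) (hirr : Irred U F)
    (hno : ∀ b : Fin (n + 1) → ℤ, Preserves U F b → ActsTrivially U F b) :
    ∃ G : MvPolynomial (Fin (n + 1)) k, (∃ d, G.IsHomogeneous d) ∧
      (∃ x ∈ Pts U F, eval x G ≠ 0) ∧ ∃ B : ℕ, ∀ (L : Type w) [Field L] [Algebra k L] [IsFF k L]
        (S : Finset (Place k L)) (f : Fin (n + 1) → L), IsMap U F S f → aeval f G ≠ 0 →
        pht k f ≤ B * max (canDeg k L + S.card) 0 := by
  classical
  have hpp := prime_of_irred hirr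
  choose e he using hF
  set Uf : Finset (Fin (n + 1)) := Finset.univ.filter (· ∈ U) with hUf
  have hUmem : ∀ j, j ∈ Uf ↔ j ∈ U := fun j => by simp [hUf]
  obtain ⟨d, G, hGd, hG, B, C, h⟩ := few_homog_gen.{u, u, w, z} (k := k)
    (p := vanishingIdeal k (Pts U F)) Uf F he (fun i => by
      obtain ⟨N, h1, h2, h3⟩ := hC i
      exact ⟨N, h1, h2, fun α hα j hj => h3 α hα j (fun h => hj ((hUmem j).2 h))⟩)
    (vanishing_min hirr) (fun j hj => X_not_mem hirr ((hUmem j).1 hj)) (exists_X_not_mem hirr) (by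
      intro b hb j l hj hl
      have h1 := hno b (preserves_of_stable hb)
      -- a point with both coordinates nonzero
      have h2 : X j * X l ∉ vanishingIdeal k (Pts U F) := fun h =>
        (Ideal.IsPrime.mem_or_mem inferInstance h).elim hj hl
      obtain ⟨x, hx, hxjl⟩ : ∃ x ∈ Pts U F, aeval x (X j * X l : MvPolynomial (Fin (n + 1)) k) ≠ 0 := by
        by_contra hcon
        push Not at hcon
        exact h2 hcon
      rw [map_mul, aeval_X, aeval_X] at hxjl
      obtain ⟨c, hc⟩ := h1 x hx 2 two_ne_zero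
      have h3 : ∀ m, x m ≠ 0 → (2 : k) ^ b m = c := by
        intro m hm
        have h4 := congrFun hc m
        simp only [Pi.smul_apply, smul_eq_mul] at h4
        rw [mul_comm] at h4
        exact mul_right_cancel₀ hm h4
      have h4 := h3 j (left_ne_zero_of_mul hxjl)
      have h5 := h3 l (right_ne_zero_of_mul hxjl)
      have h6 : (2 : k) ^ (b j - b l) = 1 := by
        rw [zpow_sub₀ two_ne_zero, h4, h5]
        exact div_self (by rw [← h5]; exact zpow_ne_zero _ two_ne_zero)
      have := two_zpow_ne h6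
      omega)
  refine ⟨G, ⟨d, hGd⟩, ?_, B, ?_⟩
  · by_contra hcon
    push Not at hcon
    exact hG hcon
  · intro L _ _ _ S f hf hfG
    have h1 := h L f (fun H hH => aeval_vanishing hf.1 hf.2.1 (fun j hj => (hf.2.2 j hj).1) hH) hfG
      (fun j hj => (hf.2.2 j ((hUmem j).1 hj)).1)
    have h2 : ∑ c ∈ C, hgt k (algebraMap k L c) = 0 :=
      Finset.sum_eq_zero fun c _ => hgt_algebraic (isAlgebraic_algebraMap c)
    rw [h2, mul_zero, add_zero, add_zero] at h1
    have h3 : boundary (k := k) Uf f ⊆ (S : Set (Place k L)) := by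
      rintro P ⟨j, hj, hP⟩
      by_contra hPS
      have := (hf.2.2 j ((hUmem j).1 hj)).2 P hPS
      omega
    have h4 : (boundary (k := k) Uf f).ncard ≤ S.card := by
      rw [← Set.ncard_coe_finset]
      exact Set.ncard_le_ncard h3 (Finset.finite_toSet S)
    have h5 : ((boundary (k := k) Uf f).ncard : ℤ) ≤ S.card := by exact_mod_cast h4
    refine h1.trans (mul_le_mul_of_nonneg_left (max_le_max_right 0 ?_) (by positivity))
    linarith

theorem irred_prod {U : Set (Fin (n + 1))} {F : ι → MvPolynomial (Fin (n + 1)) k}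
    (hF : Irred U F) {κ : Type}
    (s : Finset κ) (g : κ → MvPolynomial (Fin (n + 1)) k)
    (h : ∀ k ∈ s, ∃ x ∈ Pts U F, eval x (g k) ≠ 0) :
    ∃ x ∈ Pts U F, eval x (∏ k ∈ s, g k) ≠ 0 := by
  classical
  induction s using Finset.induction_on with
  | empty =>
    obtain ⟨x, hx⟩ := hF.1
    exact ⟨x, hx, by simp⟩
  | insert a s ha ih =>
    have h1 := ih (fun k hk => h k (Finset.mem_insert_of_mem hk))
    have h2 := h a (Finset.mem_insert_self a s)
    rw [Finset.prod_insert ha]
    by_contra hcon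
    push Not at hcon
    rcases hF.2 _ _ hcon with h3 | h3
    · obtain ⟨x, hx, hx2⟩ := h2
      exact hx2 (h3 x hx)
    · obtain ⟨x, hx, hx2⟩ := h1
      exact hx2 (h3 x hx)

/-- A nontrivial one-parameter group gives maps of unbounded degree from the multiplicative group
to `X`, whose images are not contained in a given proper closed subset. -/
theorem unbounded [IsAlgClosed k] [CharZero k] (hirr : Irred U F) {b : Fin (n + 1) → ℤ}
    (hb : Preserves U F b) (hnt : ¬ ActsTrivially U F b) {G : MvPolynomial (Fin (n + 1)) k}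
    (hG : ∃ x ∈ Pts U F, eval x G ≠ 0) :
    ∃ S : Finset (Place k (RatFunc k)), ∀ B : ℤ, ∃ f : Fin (n + 1) → RatFunc k,
      IsMap U F S f ∧ aeval f G ≠ 0 ∧ B < pht k f := by
  classical
  have hinf : Infinite k := inferInstance
  obtain ⟨x1, hx1, hx1G⟩ := hG
  unfold ActsTrivially at hnt
  push Not at hnt
  obtain ⟨x0, hx0, t0, ht0, hnt⟩ := hnt
  have hjk : ∃ j l, x0 j ≠ 0 ∧ x0 l ≠ 0 ∧ b j ≠ b l := by
    by_contra hcon
    push Not at hcon
    obtain ⟨l, hl⟩ := Function.ne_iff.mp hx0.1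
    apply hnt (t0 ^ b l)
    funext j
    rw [Pi.smul_apply, smul_eq_mul]
    by_cases hj : x0 j = 0
    · rw [hj, zero_mul, mul_zero]
    · rw [hcon j l hj hl, mul_comm]
  obtain ⟨j, l, hj, hl, hbjl⟩ := hjk
  obtain ⟨y, hy, hyG⟩ := irred_prod hirr (Finset.univ : Finset (Fin 3)) ![G, X j, X l] (by
    intro m _
    fin_cases m
    · exact ⟨x1, hx1, hx1G⟩
    · exact ⟨x0, hx0, by simpa using hj⟩
    · exact ⟨x0, hx0, by simpa using hl⟩)
  rw [map_prod, Fin.prod_univ_three] at hyG
  simp only [Matrix.cons_val_zero, Matrix.cons_val_one, Matrix.cons_val, eval_X] at hyG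
  have hyl : y l ≠ 0 := right_ne_zero_of_mul hyG
  have hyj : y j ≠ 0 := right_ne_zero_of_mul (left_ne_zero_of_mul hyG)
  have hyG' : eval y G ≠ 0 := left_ne_zero_of_mul (left_ne_zero_of_mul hyG)
  -- the curves
  obtain ⟨T, hTd⟩ : ∃ T : RatFunc k, T = RatFunc.X := ⟨_, rfl⟩
  have hTt : Transcendental k T := hTd ▸ RatFunc.transcendental_X
  have hT0 : T ≠ 0 := by rw [hTd]; exact RatFunc.X_ne_zero
  have hT1 : 1 ≤ hgt k T := by
    by_contra hcon
    obtain ⟨c, hc⟩ := const_of_hgt (k := k) (f := T) (by omega)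
    exact hTt (hc ▸ isAlgebraic_algebraMap c)
  set φ : k →+* RatFunc k := algebraMap k (RatFunc k) with hφ
  have hφi : Function.Injective φ := φ.injective
  let g : ℕ → Fin (n + 1) → RatFunc k := fun N m => φ (y m) * T ^ ((N : ℤ) * b m)
  have hg0 : ∀ N m, y m ≠ 0 → g N m ≠ 0 := fun N m hm =>
    mul_ne_zero (by rw [Ne, map_eq_zero]; exact hm) (zpow_ne_zero _ hT0)
  have hgz : ∀ N m, y m = 0 → g N m = 0 := fun N m hm => by
    change φ (y m) * T ^ ((N : ℤ) * b m) = 0
    rw [hm, map_zero, zero_mul]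
  -- values of polynomials on the curves
  have hval : ∀ (N : ℕ) (H : MvPolynomial (Fin (n + 1)) k), aeval (g N) H =
      ∑ α ∈ H.support, (T ^ (N : ℤ)) ^ (∑ j, (α j : ℤ) * b j) *
        φ (H.coeff α * ∏ j, y j ^ α j) := by
    intro N H
    rw [aeval_eq_sub]
    refine Finset.sum_congr rfl fun α _ => ?_
    have h1 : ∏ m, (g N m) ^ α m = φ (∏ m, y m ^ α m) * (T ^ (N : ℤ)) ^ (∑ j, (α j : ℤ) * b j) := by
      rw [map_prod]
      have h2 : (T ^ (N : ℤ)) ^ (∑ j, (α j : ℤ) * b j) = ∏ j, (T ^ (N : ℤ)) ^ ((α j : ℤ) * b j) := by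
        induction (Finset.univ : Finset (Fin (n + 1))) using Finset.induction_on with
        | empty => simp
        | insert a s ha ih =>
          rw [Finset.sum_insert ha, Finset.prod_insert ha, zpow_add₀ (zpow_ne_zero _ hT0), ih]
      rw [h2, ← Finset.prod_mul_distrib]
      refine Finset.prod_congr rfl fun m _ => ?_
      change (φ (y m) * T ^ ((N : ℤ) * b m)) ^ α m = _
      rw [mul_pow, map_pow, ← zpow_natCast (T ^ ((N : ℤ) * b m)), ← zpow_mul, ← zpow_mul]
      congr 2
      ring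
    rw [h1, map_mul]
    ring
  refine ⟨(finite_support (k := k) T).toFinset, fun B => ?_⟩
  set N : ℕ := (B + 1).toNat with hN
  refine ⟨g (N + 1), ⟨⟨j, hg0 _ _ hyj⟩, ?_, ?_⟩, ?_, ?_⟩
  · -- the equations
    intro i
    rw [hval]
    rw [← Finset.sum_fiberwise_of_maps_to (s := (F i).support)
      (t := (F i).support.image (fun α => ∑ j, (α j : ℤ) * b j))
      (g := fun α => ∑ j, (α j : ℤ) * b j) (fun α hα => Finset.mem_image_of_mem _ hα)]
    apply Finset.sum_eq_zero
    intro v _
    have h4 : ∀ α ∈ (F i).support.filter (fun α => ∑ j, (α j : ℤ) * b j = v),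
        (T ^ ((N + 1 : ℕ) : ℤ)) ^ (∑ j, (α j : ℤ) * b j) * φ ((F i).coeff α * ∏ j, y j ^ α j)
          = (T ^ ((N + 1 : ℕ) : ℤ)) ^ v * φ ((F i).coeff α * ∏ j, y j ^ α j) := by
      intro α hα
      rw [(Finset.mem_filter.1 hα).2]
    rw [Finset.sum_congr rfl h4, ← Finset.mul_sum, ← map_sum,
      parts_zero (F i) y b (fun t ht => (hb y hy t ht).2.2 i) v, map_zero, mul_zero]
  · -- the units
    intro m hm
    refine ⟨hg0 _ _ (hy.2.1 m hm), fun P hP => ?_⟩
    have hPT : P.ord T = 0 := by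
      by_contra h
      exact hP (by simpa using h)
    have h1 : ∀ m', y m' ≠ 0 → P.ord (g (N + 1) m') = 0 := by
      intro m' hm'
      change P.ord (φ (y m') * T ^ (((N + 1 : ℕ) : ℤ) * b m')) = 0
      rw [P.ord_mul (by rw [Ne, map_eq_zero]; exact hm') (zpow_ne_zero _ hT0), P.ord_const hm',
        P.ord_zpow, hPT]
      ring
    obtain ⟨m', hm', h2⟩ := exists_pord P (f := g (N + 1)) ⟨j, hg0 _ _ hyj⟩
    have hym' : y m' ≠ 0 := fun h => hm' (hgz _ _ h)
    rw [← h2, h1 m' hym', h1 m (hy.2.1 m hm)]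
  · -- the closed subset
    rw [hval]
    intro h0
    -- a Laurent polynomial with constant coefficients which vanishes has vanishing coefficients
    have h1 : ∀ v : ℤ, ∑ α ∈ G.support.filter (fun α => ∑ j, (α j : ℤ) * b j = v),
        G.coeff α * ∏ j, y j ^ α j = 0 := by
      intro v
      set c : ℤ := ∑ α ∈ G.support, |∑ j, (α j : ℤ) * b j| + |v| with hc
      have hcpos : ∀ α ∈ G.support, 0 ≤ (∑ j, (α j : ℤ) * b j) + c := by
        intro α hα
        have h1 : |∑ j, (α j : ℤ) * b j| ≤ ∑ α ∈ G.support, |∑ j, (α j : ℤ) * b j| :=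
          Finset.single_le_sum (f := fun α : Fin (n + 1) →₀ ℕ => |∑ j, (α j : ℤ) * b j|)
            (fun i _ => abs_nonneg _) hα
        have h2 := neg_abs_le (∑ j, (α j : ℤ) * b j)
        have h3 := abs_nonneg v
        linarith
      have hv : 0 ≤ v + c := by
        have h1 : 0 ≤ ∑ α ∈ G.support, |∑ j, (α j : ℤ) * b j| :=
          Finset.sum_nonneg fun _ _ => abs_nonneg _
        have h2 := neg_abs_le v
        linarith
      let Pl : Polynomial k := ∑ α ∈ G.support,
        Polynomial.monomial ((∑ j, (α j : ℤ) * b j) + c).toNat (G.coeff α * ∏ j, y j ^ α j)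
      have hTN : Transcendental k (T ^ (N + 1)) := hTt.pow (Nat.succ_pos N)
      have hPl0 : Pl = 0 := by
        by_contra hne
        apply hTN
        refine ⟨Pl, hne, ?_⟩
        have h2 : Polynomial.aeval (T ^ (N + 1)) Pl = (T ^ ((N + 1 : ℕ) : ℤ)) ^ c *
            ∑ α ∈ G.support, (T ^ ((N + 1 : ℕ) : ℤ)) ^ (∑ j, (α j : ℤ) * b j) *
              φ (G.coeff α * ∏ j, y j ^ α j) := by
          simp only [Pl, map_sum, Polynomial.aeval_monomial]
          rw [Finset.mul_sum]
          refine Finset.sum_congr rfl fun α hα => ?_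
          rw [← zpow_natCast T (N + 1), ← zpow_natCast (T ^ ((N + 1 : ℕ) : ℤ)),
            Int.toNat_of_nonneg (hcpos α hα), zpow_add₀ (zpow_ne_zero _ hT0)]
          ring
        rw [h2, h0, mul_zero]
      have h3 : Pl.coeff (v + c).toNat = 0 := by rw [hPl0, Polynomial.coeff_zero]
      simp only [Pl, Polynomial.finset_sum_coeff, Polynomial.coeff_monomial] at h3
      rw [← Finset.sum_filter] at h3
      rw [← h3]
      refine Finset.sum_congr ?_ fun _ _ => rfl
      ext α
      rw [Finset.mem_filter, Finset.mem_filter]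
      constructor
      · rintro ⟨h1, h2⟩
        exact ⟨h1, by rw [h2]⟩
      · rintro ⟨h1, h2⟩
        refine ⟨h1, ?_⟩
        have h4 := hcpos α h1
        omega
    apply hyG'
    rw [eval_eq', ← Finset.sum_fiberwise_of_maps_to (s := G.support)
      (t := G.support.image (fun α => ∑ j, (α j : ℤ) * b j))
      (g := fun α => ∑ j, (α j : ℤ) * b j) (fun α hα => Finset.mem_image_of_mem _ hα)]
    exact Finset.sum_eq_zero fun v _ => h1 v
  · -- the degree
    refine lt_of_lt_of_le ?_ (hgt_le_pht (g (N + 1)) (hg0 _ _ hyj) (hg0 _ _ hyl))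
    have h1 : g (N + 1) j / g (N + 1) l = (y j / y l) • T ^ (((N + 1 : ℕ) : ℤ) * (b j - b l)) := by
      change φ (y j) * T ^ (((N + 1 : ℕ) : ℤ) * b j) / (φ (y l) * T ^ (((N + 1 : ℕ) : ℤ) * b l)) = _
      rw [Algebra.smul_def, map_div₀, mul_sub, zpow_sub₀ hT0]
      field_simp
      rfl
    have h2 : hgt k (g (N + 1) j / g (N + 1) l) =
        hgt k (T ^ (((N + 1 : ℕ) : ℤ) * (b j - b l))) := by
      rw [h1]
      exact hgt_congr fun P => ord_smul P (div_ne_zero hyj hyl) _
    rw [h2, hgt_zpow hT0, abs_mul]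
    have h3 : 1 ≤ |b j - b l| := Int.one_le_abs (sub_ne_zero.2 hbjl)
    have h4 : |((N + 1 : ℕ) : ℤ)| = N + 1 := by
      rw [Nat.abs_cast]; push_cast; ring
    rw [h4]
    have h5 : B < (N : ℤ) + 1 := by omega
    have h6 : ((N : ℤ) + 1) * 1 ≤ ((N : ℤ) + 1) * |b j - b l| :=
      mul_le_mul_of_nonneg_left h3 (by positivity)
    have h7 : ((N : ℤ) + 1) * |b j - b l| * 1 ≤ ((N : ℤ) + 1) * |b j - b l| * hgt k T :=
      mul_le_mul_of_nonneg_left hT1 (by positivity)
    linarith

end Pool.Agent.W603.CX
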