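import Pool.Agent.W603.CX.Proj
import Pool.Agent.W603.LV.Thm

/-! All maps from curves to quasi-projective varieties given by few monomials that are high
powers: a linear bound for the degree, if the variety contains no orbits of diagonal one-parameter
groups. -/

set_option autoImplicit false

open FF MvPolynomial Pool.Agent.W603.LV Pool.Agent.W603.PV

namespace Pool.Agent.W603.CX

universe u v w z

/-- `X` contains a nonconstant orbit `t ↦ (x_0 t ^ b_0 : … : x_n t ^ b_n)` of a diagonal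
one-parameter group (the image of a nonconstant morphism from the multiplicative group). -/
def HasOrbit {k : Type u} [Field k] {n : ℕ} {ι : Type v} (U : Set (Fin (n + 1)))
    (F : ι → MvPolynomial (Fin (n + 1)) k) : Prop :=
  ∃ (x : Fin (n + 1) → k) (b : Fin (n + 1) → ℤ),
    (∀ t : k, t ≠ 0 → (fun j => x j * t ^ b j) ∈ Pts U F) ∧
      ∃ j l, x j ≠ 0 ∧ x l ≠ 0 ∧ b j ≠ b l

theorem all_maps {n : ℕ} {ι : Type v} [Finite ι] (U : Set (Fin (n + 1)))
    (T : ι → Finset (Fin (n + 1) →₀ ℕ))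
    (hT : ∀ i, ∃ N : ℕ, 0 < N ∧ ((T i).card - 1) ^ 2 ≤ N ∧ ∀ α ∈ T i, ∀ j, j ∉ U → N ∣ α j) :
    ∃ A : ℕ, ∀ (k : Type u) [Field k] [IsAlgClosed k] [CharZero k]
      (F : ι → MvPolynomial (Fin (n + 1)) k), (∀ i, (F i).support ⊆ T i) →
      (∀ i, ∃ d, (F i).IsHomogeneous d) → ¬ HasOrbit U F →
        ∀ (K : Type w) [Field K] [Algebra k K] [IsFF k K] (S : Finset (Place k K))
          (f : Fin (n + 1) → K), IsMap U F S f → pht k f ≤ A * max (canDeg k K + S.card) 0 := by
  classical
  have := Fintype.ofFinite ι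
  choose N hN0 hN hdiv using hT
  obtain ⟨B0, hB0⟩ : ∃ B0 : ℕ,
      B0 = ∑ i, (T i).card * (N i * (tri (T i).card).toNat) := ⟨_, rfl⟩
  set Δ : Finset (Fin (n + 1) → ℤ) := Finset.univ.biUnion fun i => Finset.image₂
    (fun α β : Fin (n + 1) →₀ ℕ => fun l => (α l : ℤ) - β l) (T i) (T i) with hΔ
  obtain ⟨C1, hC1⟩ : ∃ C1 : ℕ, C1 = ∑ J0 : Finset (Fin (n + 1)), ∑ j, ∑ Q ∈ Δ.powerset,
    cst J0 Q j := ⟨_, rfl⟩
  refine ⟨(n + 1) * (C1 * B0), ?_⟩
  intro k _ _ _ F hFT hFh hno K _ _ _ S f hf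
  choose e he using hFh
  set Uf : Finset (Fin (n + 1)) := Finset.univ.filter (· ∈ U) with hUf
  have hUmem : ∀ j, j ∈ Uf ↔ j ∈ U := fun j => by simp [hUf]
  set χ : ℤ := max (canDeg k K + S.card) 0 with hχ
  have hχ0 : 0 ≤ χ := le_max_right _ _
  -- a coordinate to divide by
  obtain ⟨l0, hl0, hl0U⟩ : ∃ l0, f l0 ≠ 0 ∧ ((∃ j, j ∈ U) → l0 ∈ U) := by
    by_cases h : ∃ j, j ∈ U
    · obtain ⟨j, hj⟩ := h
      exact ⟨j, (hf.2.2 j hj).1, fun _ => hj⟩
    · obtain ⟨j, hj⟩ := hf.1
      exact ⟨j, hj, fun h' => absurd h' h⟩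
  obtain ⟨f', hf'⟩ : ∃ f' : Fin (n + 1) → K, f' = fun j => (f l0)⁻¹ * f j := ⟨_, rfl⟩
  have hf'0 : ∀ j, f' j = 0 ↔ f j = 0 := by
    intro j
    rw [hf']
    simp [hl0]
  have hf'l0 : f' l0 = 1 := by
    rw [hf']
    exact inv_mul_cancel₀ hl0
  have hf'F : ∀ i, aeval f' (F i) = 0 := by
    intro i
    rw [hf', aeval_scale (he i), hf.2.1 i, mul_zero]
  have hf'U : ∀ j ∈ Uf, ∀ P : Place k K, P ∉ S → P.ord (f' j) = 0 := by
    intro j hj P hP
    have hjU := (hUmem j).1 hj
    have h1 := (hf.2.2 j hjU).2 P hP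
    have h2 := (hf.2.2 l0 (hl0U ⟨j, hjU⟩)).2 P hP
    rw [hf']
    simp only
    rw [P.ord_mul (inv_ne_zero hl0) (hf.2.2 j hjU).1, P.ord_inv, h1, h2]
    omega
  set J0 : Finset (Fin (n + 1)) := Finset.univ.filter fun j => f' j = 0 with hJ0
  have hf0 : ∀ j ∈ J0, f' j = 0 := fun j hj => (Finset.mem_filter.1 hj).2
  have hf1 : ∀ j, j ∉ J0 → f' j ≠ 0 := fun j hj h =>
    hj (Finset.mem_filter.2 ⟨Finset.mem_univ _, h⟩)
  have hl0J : l0 ∉ J0 := fun h => by
    have := hf0 l0 h
    rw [hf'l0] at this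
    exact one_ne_zero this
  set y : Fin (n + 1) → K := fun l => if l ∈ J0 then 1 else f' l with hy
  have hy0 : ∀ l, y l ≠ 0 := by
    intro l
    simp only [hy]
    split_ifs with h
    · exact one_ne_zero
    · exact hf1 l h
  have hblk := fun i => eq_blocks S Uf (F i) (T i) (hFT i) (hN0 i) (hN i)
    (fun α hα j hj => hdiv i α hα j (fun h => hj ((hUmem j).2 h))) J0 f' hf0 hf1
    hf'U (hf'F i) y (fun l => rfl)
  choose Qi hQs hQh hQb using hblk
  set Q : Finset (Fin (n + 1) → ℤ) := Finset.univ.biUnion Qi with hQ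
  have hQΔ : Q ∈ Δ.powerset := by
    rw [Finset.mem_powerset]
    exact Finset.biUnion_mono fun i _ => hQs i
  have hQ' : ∀ i, ∀ q ∈ Qi i, q ∈ Q := fun i q hq =>
    Finset.mem_biUnion.2 ⟨i, Finset.mem_univ _, hq⟩
  have hQB : ∀ q ∈ Q, hgt k (mon y q) ≤ B0 * χ := by
    intro q hq
    obtain ⟨i, -, hqi⟩ := Finset.mem_biUnion.1 hq
    refine (hQh i q hqi).trans ?_
    have h1 : (((T i).card * (N i * (tri (T i).card).toNat) : ℕ) : ℤ) ≤ B0 := by
      rw [hB0]
      exact_mod_cast Finset.single_le_sum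
        (f := fun i => (T i).card * (N i * (tri (T i).card).toNat))
        (fun _ _ => Nat.zero_le _) (Finset.mem_univ i)
    have h2 := mul_le_mul_of_nonneg_right h1 hχ0
    refine le_trans (le_of_eq ?_) h2
    rw [Nat.cast_mul, Nat.cast_mul, Int.toNat_of_nonneg (tri_nonneg _), hχ]
    ring
  -- each affine coordinate has small height
  have hcoord : ∀ j, hgt k (f' j) ≤ (C1 * B0 : ℕ) * χ := by
    intro j
    by_cases hj : j ∈ J0
    · rw [hf0 j hj]
      have h1 : hgt k (0 : K) = 0 := by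
        rw [hgt_finset (k := k) (0 : K) ∅ (fun P h => absurd P.ord_zero h)]
        rfl
      rw [h1]
      exact mul_nonneg (Nat.cast_nonneg _) hχ0
    · by_cases hjl : j = l0
      · rw [hjl, hf'l0, hgt_one]
        exact mul_nonneg (Nat.cast_nonneg _) hχ0
      have hj1 : j ∉ insert l0 J0 := by
        rw [Finset.mem_insert, not_or]
        exact ⟨hjl, hj⟩
      rcases dich (insert l0 J0) Q j with ⟨d, c, hd, hc⟩ | ⟨b, hbj, hb0, hbQ⟩
      · have h1 := hgt_le_cst (k := k) hj1 ⟨c, d, hd, hc⟩ hy0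
          (fun l hl => by
            rcases Finset.mem_insert.1 hl with rfl | hl
            · simp only [hy, if_neg hl0J, hf'l0]
            · simp only [hy, if_pos hl]) hQB
        have h2 : y j = f' j := by simp only [hy, if_neg hj]
        rw [h2] at h1
        refine h1.trans ?_
        have h3 : cst (insert l0 J0) Q j ≤ C1 := by
          rw [hC1]
          refine le_trans ?_ (Finset.single_le_sum
            (f := fun J0 : Finset (Fin (n + 1)) => ∑ j, ∑ Q ∈ Δ.powerset, cst J0 Q j)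
            (fun _ _ => Nat.zero_le _) (Finset.mem_univ (insert l0 J0)))
          refine le_trans ?_ (Finset.single_le_sum
            (f := fun j => ∑ Q ∈ Δ.powerset, cst (insert l0 J0) Q j) (fun _ _ => Nat.zero_le _)
            (Finset.mem_univ j))
          exact Finset.single_le_sum (f := fun Q => cst (insert l0 J0) Q j)
            (fun _ _ => Nat.zero_le _) hQΔ
        have h4 : (cst (insert l0 J0) Q j : ℤ) ≤ C1 := by exact_mod_cast h3
        have h5 : (0 : ℤ) ≤ B0 * χ := mul_nonneg (Nat.cast_nonneg _) hχ0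
        have h6 := mul_le_mul_of_nonneg_right h4 h5
        refine h6.trans (le_of_eq ?_)
        push_cast; ring
      · exfalso
        apply hno
        -- specialise at a place
        obtain ⟨T0, hT0⟩ := exists_supp (k := k) Finset.univ f'
        obtain ⟨P, hP⟩ := exists_place_not_mem (k := k) (K := K) T0
        have hord : ∀ l, P.ord (f' l) = 0 := by
          intro l
          by_contra h
          exact hP (hT0 l (Finset.mem_univ l) P h)
        have hfP : ∀ l, Ge P 0 (f' l) := fun l => Or.inr (hord l).ge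
        choose c hc using fun l => exists_const P (hfP l)
        have hred := red_mvaeval P hfP hc
        have hcne : ∀ l, f' l ≠ 0 → c l ≠ 0 := by
          intro l hl h0
          have h1 := hc l
          rw [h0, map_zero, sub_zero] at h1
          have h2 := h1.resolve_left hl
          rw [hord l] at h2
          omega
        have hcl0 : c l0 ≠ 0 := hcne l0 (by rw [hf'l0]; exact one_ne_zero)
        refine ⟨c, b, ?_, j, l0, hcne j (hf1 j hj), hcl0, ?_⟩
        · intro t ht
          refine ⟨Function.ne_iff.2 ⟨l0, mul_ne_zero hcl0 (zpow_ne_zero _ ht)⟩, ?_, ?_⟩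
          · intro m hm
            exact mul_ne_zero (hcne m (fun h => (hf.2.2 m hm).1 ((hf'0 m).1 h)))
              (zpow_ne_zero _ ht)
          · intro i
            apply eval_laurent_zero _ _ _ _ ht
            intro v
            have h1 := hQb i b (fun q hq => hbQ q (hQ' i q hq)) v
            have h2 := hred (sub (F i) ((F i).support.filter fun α => ∑ j, (α j : ℤ) * b j = v))
            rw [h1, zero_sub] at h2
            have h3 := h2.neg
            rw [neg_neg] at h3
            exact const_zero P h3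
        · rw [hb0 l0 (Finset.mem_insert_self _ _)]
          exact hbj
  refine (pht_le f hl0).trans ?_
  have h1 : ∀ j, f j / f l0 = f' j := by
    intro j
    rw [hf']
    simp only
    rw [div_eq_inv_mul]
  rw [Finset.sum_congr rfl fun j _ => congrArg (hgt k) (h1 j)]
  refine (Finset.sum_le_sum fun j _ => hcoord j).trans ?_
  rw [Finset.sum_const, nsmul_eq_mul, Finset.card_univ, Fintype.card_fin]
  push_cast
  exact le_of_eq (by ring)

/-- An orbit gives maps of unbounded degree from the multiplicative group. -/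
theorem unbounded_orbit {k : Type u} [Field k] [IsAlgClosed k] [CharZero k] {n : ℕ} {ι : Type v}
    {U : Set (Fin (n + 1))} {F : ι → MvPolynomial (Fin (n + 1)) k} (h : HasOrbit U F) (B : ℤ) :
    ∃ f : Fin (n + 1) → RatFunc k,
      IsMap U F (finite_support (k := k) (RatFunc.X : RatFunc k)).toFinset f ∧ B < pht k f := by
  classical
  have hinf : Infinite k := inferInstance
  obtain ⟨y, b', hy', j, l, hyj, hyl, hbjl'⟩ := h
  obtain ⟨b, hbd⟩ : ∃ b : Fin (n + 1) → ℤ, b = fun m => (((B + 1).toNat + 1 : ℕ) : ℤ) * b' m :=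
    ⟨_, rfl⟩
  have hy : ∀ t : k, t ≠ 0 → (fun j => y j * t ^ b j) ∈ Pts U F := by
    intro t ht
    have h1 := hy' (t ^ ((B + 1).toNat + 1)) (pow_ne_zero _ ht)
    have h2 : (fun j => y j * t ^ b j) = fun j => y j * (t ^ ((B + 1).toNat + 1)) ^ b' j := by
      funext m
      rw [hbd, ← zpow_natCast t, ← zpow_mul]
    rw [h2]; exact h1
  have hbjl : B < |b j - b l| := by
    rw [hbd]
    simp only
    rw [← mul_sub, abs_mul, Nat.abs_cast]
    have h3 : 1 ≤ |b' j - b' l| := Int.one_le_abs (sub_ne_zero.2 hbjl')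
    have h4 : (((B + 1).toNat + 1 : ℕ) : ℤ) * 1 ≤ (((B + 1).toNat + 1 : ℕ) : ℤ) * |b' j - b' l| :=
      mul_le_mul_of_nonneg_left h3 (by positivity)
    refine lt_of_lt_of_le ?_ h4
    push_cast
    omega
  obtain ⟨T, hTd⟩ : ∃ T : RatFunc k, T = RatFunc.X := ⟨_, rfl⟩
  have hTt : Transcendental k T := hTd ▸ RatFunc.transcendental_X
  have hT0 : T ≠ 0 := by rw [hTd]; exact RatFunc.X_ne_zero
  have hT1 : 1 ≤ hgt k T := by
    by_contra hcon
    obtain ⟨c, hc⟩ := const_of_hgt (k := k) (f := T) (by omega)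
    exact hTt (hc ▸ isAlgebraic_algebraMap c)
  rw [← hTd]
  set φ : k →+* RatFunc k := algebraMap k (RatFunc k) with hφ
  have hφi : Function.Injective φ := φ.injective
  let g : Fin (n + 1) → RatFunc k := fun m => φ (y m) * T ^ (b m)
  have hg0 : ∀ m, y m ≠ 0 → g m ≠ 0 := fun m hm =>
    mul_ne_zero (by rw [Ne, map_eq_zero]; exact hm) (zpow_ne_zero _ hT0)
  have hgz : ∀ m, y m = 0 → g m = 0 := fun m hm => by
    change φ (y m) * T ^ (b m) = 0
    rw [hm, map_zero, zero_mul]
  have hval : ∀ (H : MvPolynomial (Fin (n + 1)) k), aeval g H =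
      ∑ α ∈ H.support, T ^ (∑ j, (α j : ℤ) * b j) * φ (H.coeff α * ∏ j, y j ^ α j) := by
    intro H
    rw [aeval_eq_sub]
    refine Finset.sum_congr rfl fun α _ => ?_
    have h1 : ∏ m, (g m) ^ α m = φ (∏ m, y m ^ α m) * T ^ (∑ j, (α j : ℤ) * b j) := by
      rw [map_prod]
      have h2 : T ^ (∑ j, (α j : ℤ) * b j) = ∏ j, T ^ ((α j : ℤ) * b j) := by
        induction (Finset.univ : Finset (Fin (n + 1))) using Finset.induction_on with
        | empty => simp
        | insert a s ha ih =>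
          rw [Finset.sum_insert ha, Finset.prod_insert ha, zpow_add₀ hT0, ih]
      rw [h2, ← Finset.prod_mul_distrib]
      refine Finset.prod_congr rfl fun m _ => ?_
      change (φ (y m) * T ^ (b m)) ^ α m = _
      rw [mul_pow, map_pow, ← zpow_natCast (T ^ (b m)), ← zpow_mul]
      congr 2
      ring
    rw [h1, map_mul]
    ring
  have hgF : ∀ i, aeval g (F i) = 0 := by
    intro i
    rw [hval]
    rw [← Finset.sum_fiberwise_of_maps_to (s := (F i).support)
      (t := (F i).support.image (fun α => ∑ j, (α j : ℤ) * b j))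
      (g := fun α => ∑ j, (α j : ℤ) * b j) (fun α hα => Finset.mem_image_of_mem _ hα)]
    apply Finset.sum_eq_zero
    intro v _
    have h4 : ∀ α ∈ (F i).support.filter (fun α => ∑ j, (α j : ℤ) * b j = v),
        T ^ (∑ j, (α j : ℤ) * b j) * φ ((F i).coeff α * ∏ j, y j ^ α j)
          = T ^ v * φ ((F i).coeff α * ∏ j, y j ^ α j) := by
      intro α hα
      rw [(Finset.mem_filter.1 hα).2]
    rw [Finset.sum_congr rfl h4, ← Finset.mul_sum, ← map_sum,
      parts_zero (F i) y b (fun t ht => (hy t ht).2.2 i) v, map_zero, mul_zero]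
  have hyU : ∀ m ∈ U, y m ≠ 0 := by
    intro m hm
    have := (hy 1 one_ne_zero).2.1 m hm
    simpa using this
  refine ⟨g, ⟨⟨j, hg0 _ hyj⟩, hgF, ?_⟩, ?_⟩
  · intro m hm
    refine ⟨hg0 _ (hyU m hm), fun P hP => ?_⟩
    have hPT : P.ord T = 0 := by
      by_contra h
      exact hP (by simpa using h)
    have h1 : ∀ m', y m' ≠ 0 → P.ord (g m') = 0 := by
      intro m' hm'
      change P.ord (φ (y m') * T ^ (b m')) = 0
      rw [P.ord_mul (by rw [Ne, map_eq_zero]; exact hm') (zpow_ne_zero _ hT0), P.ord_const hm',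
        P.ord_zpow, hPT]
      ring
    obtain ⟨m', hm', h2⟩ := exists_pord P (f := g) ⟨j, hg0 _ hyj⟩
    have hym' : y m' ≠ 0 := fun h => hm' (hgz _ h)
    rw [← h2, h1 m' hym', h1 m (hyU m hm)]
  · refine lt_of_lt_of_le ?_ (hgt_le_pht g (hg0 _ hyj) (hg0 _ hyl))
    have h1 : g j / g l = (y j / y l) • T ^ (b j - b l) := by
      change φ (y j) * T ^ (b j) / (φ (y l) * T ^ (b l)) = _
      rw [Algebra.smul_def, map_div₀, zpow_sub₀ hT0]
      field_simp
      rfl
    have h2 : hgt k (g j / g l) = hgt k (T ^ (b j - b l)) := by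
      rw [h1]
      exact hgt_congr fun P => ord_smul P (div_ne_zero hyj hyl) _
    rw [h2, hgt_zpow hT0]
    have h3 := abs_nonneg (b j - b l)
    nlinarith

end Pool.Agent.W603.CX
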