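import Pool.Agent.W603.PV.FewGen
import Pool.Agent.W603.LV.Exc
import Pool.Agent.H159R3.GGL.Maps

/-! Quasi-projective varieties over the complex numbers: maps from curves, heights and orbits of
one-parameter groups. -/

set_option autoImplicit false

open FF MvPolynomial Pool.Agent.W603.LV Pool.Agent.W603.PV

namespace Pool.Agent.W603.CX

universe u v w z

/-- the height of a quotient of coordinates is at most the height of the point -/
theorem hgt_le_pht {k : Type u} [Field k] [IsAlgClosed k] [CharZero k] {L : Type w} [Field L]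
    [Algebra k L] [IsFF k L] {n : ℕ} (f : Fin (n + 1) → L) {j l : Fin (n + 1)} (hj : f j ≠ 0)
    (hl : f l ≠ 0) : hgt k (f j / f l) ≤ pht k f := by
  classical
  obtain ⟨T, hT⟩ := exists_supp (k := k) Finset.univ f
  have h1 : ∀ j, ∀ P : Place k L, P.ord (f j) ≠ 0 → P ∈ T := fun j => hT j (Finset.mem_univ j)
  have h1' : ∀ P : Place k L, P.ord (f j / f l) ≠ 0 → P ∈ T := by
    intro P hP
    by_contra hcon
    apply hP
    have h2 : P.ord (f j) = 0 := by by_contra h; exact hcon (h1 j P h)
    have h3 : P.ord (f l) = 0 := by by_contra h; exact hcon (h1 l P h)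
    rw [P.ord_div hj hl, h2, h3]; rfl
  have h2 : pht k f = ∑ P ∈ T, (- pord P f) := by
    unfold pht
    rw [finsum_eq_sum_of_support_subset (s := T), Finset.sum_neg_distrib]
    intro P hP
    by_contra hcon
    apply hP
    obtain ⟨j, hj, h⟩ := exists_pord P ⟨l, hl⟩
    simp only
    rw [← h]
    by_contra h'; exact hcon (h1 j P h')
  have h3 : ∑ P ∈ T, P.ord (f l) = 0 := sum_ord_finset _ T (h1 l)
  have h4 : ∑ P ∈ T, (- pord P f) = ∑ P ∈ T, (- pord P f + P.ord (f l)) := by
    rw [Finset.sum_add_distrib, h3, add_zero]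
  rw [h2, h4, hgt_finset _ T h1']
  refine Finset.sum_le_sum fun P _ => ?_
  have h5 := pord_le P hj
  have h6 := pord_le P hl
  rw [P.ord_div hj hl]
  refine max_le ?_ ?_ <;> omega

/-- The weighted parts of a polynomial vanish at a point if the polynomial vanishes on the orbit of
the point. -/
theorem parts_zero {k : Type u} [Field k] [Infinite k] {n : ℕ} (F : MvPolynomial (Fin n) k)
    (x : Fin n → k) (b : Fin n → ℤ) (h : ∀ t : k, t ≠ 0 → eval (fun j => x j * t ^ b j) F = 0)
    (v : ℤ) : ∑ α ∈ F.support.filter (fun α => ∑ j, (α j : ℤ) * b j = v),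
      F.coeff α * ∏ j, x j ^ α j = 0 := by
  classical
  set c : ℤ := ∑ α ∈ F.support, |∑ j, (α j : ℤ) * b j| + |v| with hc
  have hcpos : ∀ α ∈ F.support, 0 ≤ (∑ j, (α j : ℤ) * b j) + c := by
    intro α hα
    have h1 : |∑ j, (α j : ℤ) * b j| ≤ ∑ α ∈ F.support, |∑ j, (α j : ℤ) * b j| :=
      Finset.single_le_sum (f := fun α : Fin n →₀ ℕ => |∑ j, (α j : ℤ) * b j|)
        (fun i _ => abs_nonneg _) hα
    have h2 := neg_abs_le (∑ j, (α j : ℤ) * b j)
    have h3 := abs_nonneg v
    linarith
  have hv : 0 ≤ v + c := by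
    have h1 : 0 ≤ ∑ α ∈ F.support, |∑ j, (α j : ℤ) * b j| :=
      Finset.sum_nonneg fun _ _ => abs_nonneg _
    have h2 := neg_abs_le v
    linarith
  let P : Polynomial k := ∑ α ∈ F.support,
    Polynomial.monomial ((∑ j, (α j : ℤ) * b j) + c).toNat (F.coeff α * ∏ j, x j ^ α j)
  have hP0 : P = 0 := by
    apply Polynomial.eq_zero_of_infinite_isRoot
    apply Set.Infinite.mono (s := {t : k | t ≠ 0})
    · intro t ht
      have ht0 : t ≠ 0 := ht
      change P.eval t = 0
      have h1 := h t ht0
      rw [eval_laurent F x b t ht0] at h1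
      have h2 : P.eval t = t ^ c * ∑ α ∈ F.support,
          t ^ (∑ j, (α j : ℤ) * b j) * (F.coeff α * ∏ j, x j ^ α j) := by
        simp only [P, Polynomial.eval_finset_sum, Polynomial.eval_monomial]
        rw [Finset.mul_sum]
        refine Finset.sum_congr rfl fun α hα => ?_
        rw [← zpow_natCast, Int.toNat_of_nonneg (hcpos α hα), zpow_add₀ ht0]
        ring
      rw [h2, h1, mul_zero]
    · have : {t : k | t ≠ 0} = {0}ᶜ := by ext; simp
      rw [this]
      exact (Set.finite_singleton (0 : k)).infinite_compl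
  have h3 : P.coeff (v + c).toNat = 0 := by rw [hP0, Polynomial.coeff_zero]
  simp only [P, Polynomial.finset_sum_coeff, Polynomial.coeff_monomial] at h3
  rw [← Finset.sum_filter] at h3
  rw [← h3]
  refine Finset.sum_congr ?_ fun _ _ => rfl
  ext α
  rw [Finset.mem_filter, Finset.mem_filter]
  constructor
  · rintro ⟨h1, h2⟩
    exact ⟨h1, by rw [h2]⟩
  · rintro ⟨h1, h2⟩
    refine ⟨h1, ?_⟩
    have h4 := hcpos α h1
    omega

instance isFF_ratFunc {k : Type u} [Field k] : IsFF k (RatFunc k) := by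
  refine IsFF.of_finite (f := (RatFunc.X : RatFunc k)) RatFunc.transcendental_X ?_
  rw [RatFunc.adjoin_X]
  refine ⟨⟨{1}, ?_⟩⟩
  rw [eq_top_iff]
  intro x _
  have h : x = (⟨x, IntermediateField.mem_top⟩ : (⊤ : IntermediateField k (RatFunc k))) •
      (1 : RatFunc k) := by
    rw [IntermediateField.smul_def, smul_eq_mul, mul_one]
  rw [h]
  exact Submodule.smul_mem _ _ (Submodule.subset_span (by simp))

end Pool.Agent.W603.CX
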