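import Pool.Agent.W603.CX.Proj

/-! Condition 5 (boundedness) for complex quasi-projective varieties given by few monomials that
are high powers. -/

set_option autoImplicit false

open FF MvPolynomial Pool.Agent.W603.LV Pool.Agent.W603.PV Pool.Agent.H159R3.GGLLog

namespace Pool.Agent.W603.CX

variable {n : ℕ} {ι : Type} (U : Set (Fin (n + 1))) (F : ι → MvPolynomial (Fin (n + 1)) ℂ)

/-- `X` is bounded modulo some proper closed subset `Δ` (given by `G = 0`): for every smooth
projective curve (with function field `L`) and every finite set `S` of its points, the morphisms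
from the curve without `S` to `X` whose image is not contained in `Δ` have bounded degree. -/
def BoundedModulo : Prop :=
  ∃ G : MvPolynomial (Fin (n + 1)) ℂ, (∃ d, G.IsHomogeneous d) ∧
    (∃ x ∈ Pool.Agent.H159R3.GGLLog.Pts U F, eval x G ≠ 0) ∧
    ∀ (L : Type) [Field L] [Algebra ℂ L] [IsFF ℂ L] (S : Finset (Place ℂ L)), ∃ B : ℤ,
      ∀ f : Fin (n + 1) → L, IsMap U F S f → aeval f G ≠ 0 → pht ℂ f ≤ B

/-- The degrees of the morphisms to `X` from curves, with image not contained in some proper closed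
subset, are bounded by a multiple of `2 g - 2 + |S|`, and there are no nonconstant such morphisms
if this number is not positive. -/
def LinearlyBounded : Prop :=
  ∃ G : MvPolynomial (Fin (n + 1)) ℂ, (∃ d, G.IsHomogeneous d) ∧
    (∃ x ∈ Pool.Agent.H159R3.GGLLog.Pts U F, eval x G ≠ 0) ∧ ∃ B : ℕ,
    ∀ (L : Type) [Field L] [Algebra ℂ L] [IsFF ℂ L] (S : Finset (Place ℂ L))
      (f : Fin (n + 1) → L), IsMap U F S f → aeval f G ≠ 0 →
      pht ℂ f ≤ B * max (canDeg ℂ L + S.card) 0

theorem tfae [Finite ι] (hF : ∀ i, ∃ d, (F i).IsHomogeneous d)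
    (hC : ∀ i, Pool.Agent.H159R3.GGLLog.PowerSparse U (F i))
    (hirr : Pool.Agent.H159R3.GGLLog.Irred U F) :
    [PseudoBrody U F, FewPointedMaps U F, BoundedModulo U F, LinearlyBounded U F].TFAE := by
  have h1 := main U F hF hC hirr
  have h2 := few_iff U F hF hC hirr
  tfae_have 1 ↔ 2 := h2
  tfae_have 4 → 3 := by
    rintro ⟨G, hG, hx, B, h⟩
    exact ⟨G, hG, hx, fun L _ _ _ S => ⟨_, fun f hf hfG => h L S f hf hfG⟩⟩
  tfae_have 3 → 1 := by
    rintro ⟨G, -, hx, h⟩
    rw [h1]
    intro b hb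
    by_contra hnt
    obtain ⟨S, hS⟩ := unbounded (k := ℂ) (U := U) (F := F) hirr hb hnt hx
    obtain ⟨B, hB⟩ := h (RatFunc ℂ) S
    obtain ⟨f, hf, hfG, hlt⟩ := hS B
    exact absurd (hB f hf hfG) (not_le.2 hlt)
  tfae_have 1 → 4 := by
    intro h
    rw [h1] at h
    exact bound_of_trivial (k := ℂ) (U := U) (F := F) hF hC hirr h
  tfae_finish

end Pool.Agent.W603.CX
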