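import Pool.Agent.W603.CX.Noeth

/-! Specialisation of a line through the generic point. -/

set_option autoImplicit false

open FF MvPolynomial Pool.Agent.W603.LV Pool.Agent.W603.PV

namespace Pool.Agent.W603.CX

universe u v w z

variable {k : Type u} [Field k] [IsAlgClosed k] {n : ℕ}

theorem exists_point {p : Ideal (MvPolynomial (Fin (n + 1)) k)} [hp : p.IsPrime]
    {g : MvPolynomial (Fin (n + 1)) k} (hg : g ∉ p) :
    ∃ x : Fin (n + 1) → k, (∀ H ∈ p, eval x H = 0) ∧ eval x g ≠ 0 := by
  by_contra hcon
  push Not at hcon
  apply hg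
  rw [← hp.radical, ← vanishingIdeal_zeroLocus_eq_radical (K := k)]
  intro x hx
  exact hcon x (fun H hH => hx H hH)

/-- A line through the generic point specialises to lines through general points. -/
theorem specialise_line {p : Ideal (MvPolynomial (Fin (n + 1)) k)} [hp : p.IsPrime]
    {v : Fin (n + 1) → FractionRing (MvPolynomial (Fin (n + 1)) k ⧸ p)} {j l : Fin (n + 1)}
    (hjl : v j * xi p l ≠ v l * xi p j) {Q : MvPolynomial (Fin (n + 1)) k} {q : ℕ}
    {μ : FractionRing (MvPolynomial (Fin (n + 1)) k ⧸ p)}
    (hQ : along p v Q =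
      Polynomial.C (aeval (xi p) Q) * (1 + Polynomial.C μ * Polynomial.X) ^ q)
    {G : MvPolynomial (Fin (n + 1)) k} (hG : G ∉ p) :
    ∃ (x w : Fin (n + 1) → k) (m : k), (∀ H ∈ p, eval x H = 0) ∧ eval x G ≠ 0 ∧
      w j * x l ≠ w l * x j ∧
      (∀ H, along p v H = 0 → ∀ t : k, eval (fun a => x a + t * w a) H = 0) ∧
      ∀ t : k, eval (fun a => x a + t * w a) Q = eval x Q * (1 + m * t) ^ q := by
  classical
  let A := MvPolynomial (Fin (n + 1)) k ⧸ p
  let E := FractionRing A
  have hinj : Function.Injective (algebraMap A E) := IsFractionRing.injective A E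
  -- common denominators
  obtain ⟨b, hb⟩ := IsLocalization.exist_integer_multiples_of_finset (nonZeroDivisors A)
    (insert μ (Finset.univ.image v) : Finset E)
  have hb0 : (b : A) ≠ 0 := nonZeroDivisors.ne_zero b.2
  have hbV : ∀ a, ∃ V : A, algebraMap A E V = algebraMap A E (b : A) * v a := fun a => by
    obtain ⟨V, hV⟩ := hb (v a) (Finset.mem_insert_of_mem
      (Finset.mem_image_of_mem _ (Finset.mem_univ a)))
    exact ⟨V, hV.trans (Algebra.smul_def _ _)⟩
  choose V hV using hbV
  obtain ⟨M, hM⟩ : ∃ M : A, algebraMap A E M = algebraMap A E (b : A) * μ := by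
    obtain ⟨V, hV⟩ := hb μ (Finset.mem_insert_self _ _)
    exact ⟨V, hV.trans (Algebra.smul_def _ _)⟩
  -- the line over the coordinate ring
  let lineA : MvPolynomial (Fin (n + 1)) k →ₐ[k] Polynomial A :=
    aeval fun a => Polynomial.C (Ideal.Quotient.mk p (X a)) + Polynomial.C (V a) * Polynomial.X
  have hcomp : ∀ H, Polynomial.map (algebraMap A E) (lineA H) =
      (along p v H).comp (Polynomial.C (algebraMap A E b) * Polynomial.X) := by
    intro H
    induction H using MvPolynomial.induction_on with
    | C a =>
      simp only [lineA, along, aeval_C]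
      rw [IsScalarTower.algebraMap_apply k A (Polynomial A), IsScalarTower.algebraMap_apply k E
        (Polynomial E)]
      simp only [Polynomial.algebraMap_apply, Algebra.algebraMap_self, RingHom.id_apply,
        Polynomial.map_C, Polynomial.C_comp]
      rfl
    | add H1 H2 h1 h2 =>
      rw [map_add, map_add, Polynomial.map_add, Polynomial.add_comp, h1, h2]
    | mul_X H a h =>
      rw [map_mul, map_mul, Polynomial.map_mul, Polynomial.mul_comp, h]
      congr 1
      simp only [lineA, along, aeval_X, Polynomial.map_add, Polynomial.map_mul, Polynomial.map_C,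
        Polynomial.map_X, Polynomial.add_comp, Polynomial.mul_comp, Polynomial.C_comp,
        Polynomial.X_comp]
      rw [hV a, map_mul]
      unfold xi
      ring
  have hmapinj : Function.Injective (Polynomial.map (algebraMap A E)) :=
    Polynomial.map_injective _ hinj
  have hline0 : ∀ H, along p v H = 0 → lineA H = 0 := by
    intro H hH
    apply hmapinj
    rw [hcomp, hH, Polynomial.zero_comp, Polynomial.map_zero]
  have hlineQ : lineA Q = Polynomial.C (Ideal.Quotient.mk p Q) *
      (1 + Polynomial.C M * Polynomial.X) ^ q := by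
    apply hmapinj
    rw [hcomp, hQ]
    simp only [Polynomial.mul_comp, Polynomial.pow_comp, Polynomial.add_comp, Polynomial.C_comp,
      Polynomial.one_comp, Polynomial.X_comp, Polynomial.map_mul, Polynomial.map_pow,
      Polynomial.map_add, Polynomial.map_one, Polynomial.map_C, Polynomial.map_X]
    rw [hM, map_mul, aeval_xi]
    congr 2
    ring
  -- a good point
  obtain ⟨g, hg⟩ := Ideal.Quotient.mk_surjective
    (I := p) (V j * Ideal.Quotient.mk p (X l) - V l * Ideal.Quotient.mk p (X j))
  have hg0 : g ∉ p := by
    intro h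
    rw [← Ideal.Quotient.eq_zero_iff_mem, hg, sub_eq_zero] at h
    have h2 := congrArg (algebraMap A E) h
    rw [map_mul, map_mul, hV, hV] at h2
    apply hjl
    have hb1 : algebraMap A E (b : A) ≠ 0 := by
      rw [Ne, ← map_zero (algebraMap A E)]
      exact fun h => hb0 (hinj h)
    apply mul_left_cancel₀ hb1
    unfold xi
    linear_combination h2
  obtain ⟨x, hxp, hxg⟩ := exists_point (p := p) (g := G * g) (fun h =>
    (hp.mem_or_mem h).elim hG hg0)
  rw [map_mul] at hxg
  -- evaluation at the point
  let θ : A →+* k := Ideal.Quotient.lift p (eval x) hxp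
  have hθ : ∀ H, θ (Ideal.Quotient.mk p H) = eval x H := fun H => Ideal.Quotient.lift_mk _ _ _
  have heval : ∀ (H : MvPolynomial (Fin (n + 1)) k) (t : k),
      Polynomial.eval t (Polynomial.map θ (lineA H)) = eval (fun a => x a + t * θ (V a)) H := by
    intro H t
    induction H using MvPolynomial.induction_on with
    | C a =>
      simp only [lineA, aeval_C, eval_C]
      rw [IsScalarTower.algebraMap_apply k A (Polynomial A)]
      simp only [Polynomial.algebraMap_apply, Algebra.algebraMap_self, RingHom.id_apply,
        Polynomial.map_C, Polynomial.eval_C]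
      change θ (Ideal.Quotient.mk p (C a)) = a
      rw [hθ, eval_C]
    | add H1 H2 h1 h2 =>
      rw [map_add, Polynomial.map_add, Polynomial.eval_add, h1, h2, map_add]
    | mul_X H a h =>
      rw [map_mul, Polynomial.map_mul, Polynomial.eval_mul, h, map_mul]
      congr 1
      simp only [lineA, aeval_X, eval_X, Polynomial.map_add, Polynomial.map_mul, Polynomial.map_C,
        Polynomial.map_X, Polynomial.eval_add, Polynomial.eval_mul, Polynomial.eval_C,
        Polynomial.eval_X, hθ]
      ring
  refine ⟨x, fun a => θ (V a), θ M, hxp, left_ne_zero_of_mul hxg, ?_, ?_, ?_⟩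
  · intro h
    apply right_ne_zero_of_mul hxg
    rw [← hθ, hg, map_sub, map_mul, map_mul, hθ, hθ, eval_X, eval_X]
    simp only at h
    rw [h, sub_self]
  · intro H hH t
    rw [← heval, hline0 H hH, Polynomial.map_zero, Polynomial.eval_zero]
  · intro t
    rw [← heval, hlineQ]
    simp only [Polynomial.map_mul, Polynomial.map_pow, Polynomial.map_add, Polynomial.map_one,
      Polynomial.map_C, Polynomial.map_X, Polynomial.eval_mul, Polynomial.eval_pow,
      Polynomial.eval_add, Polynomial.eval_one, Polynomial.eval_C, Polynomial.eval_X, hθ]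

end Pool.Agent.W603.CX
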