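import Pool.Agent.W603.PV.War

/-! A linear bound for the degrees of all maps from curves, by noetherian induction. -/

set_option autoImplicit false

open FF MvPolynomial Pool.Agent.W603.LV Pool.Agent.W603.PV

namespace Pool.Agent.W603.CX

universe u v w z

variable {k : Type u} [Field k] {n : ℕ}

section graded

attribute [local instance] MvPolynomial.gradedAlgebra

theorem isHomog_iff {p : Ideal (MvPolynomial (Fin (n + 1)) k)} :
    IsHomog p ↔ p.IsHomogeneous (homogeneousSubmodule (Fin (n + 1)) k) := by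
  have h0 : ∀ (H : MvPolynomial (Fin (n + 1)) k) (d : ℕ),
      ((DirectSum.decompose (homogeneousSubmodule (Fin (n + 1)) k) H d :
        homogeneousSubmodule (Fin (n + 1)) k d) : MvPolynomial (Fin (n + 1)) k) =
        homogeneousComponent d H := fun H d => decomposition.decompose'_apply H d
  constructor
  · intro h d H hH
    rw [h0]
    exact h H hH d
  · intro h H hH d
    rw [← h0]
    exact h d hH

theorem isHomog_sup {p : Ideal (MvPolynomial (Fin (n + 1)) k)} (hp : IsHomog p)
    {G : MvPolynomial (Fin (n + 1)) k} {d : ℕ} (hG : G.IsHomogeneous d) :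
    IsHomog (p ⊔ Ideal.span {G}) := by
  rw [isHomog_iff] at hp ⊢
  exact hp.sup (Ideal.homogeneous_span _ _ fun x hx => by
    rw [Set.mem_singleton_iff] at hx
    exact ⟨d, hx ▸ hG⟩)

end graded

theorem isHomog_minimal {I p : Ideal (MvPolynomial (Fin (n + 1)) k)} (hI : IsHomog I)
    (hp : p ∈ I.minimalPrimes) : IsHomog p := by
  have h1 : Ideal.span (Set.range (fun x : I => (x : MvPolynomial (Fin (n + 1)) k))) = I := by
    have h0 : Set.range (fun x : I => (x : MvPolynomial (Fin (n + 1)) k)) =
        (I : Set (MvPolynomial (Fin (n + 1)) k)) := by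
      ext x
      simp
    rw [h0]
    exact Ideal.span_eq I
  have h2 := stable_of_min (fun x : I => (x : MvPolynomial (Fin (n + 1)) k)) (p := p)
    (by rw [h1]; exact hp) (1 : Fin (n + 1) → ℕ) (fun x c => hp.1.2 (hI x x.2 c))
  intro H hH d
  exact h2 H hH d

/-- The degrees of all maps are bounded linearly, if all closed subvarieties have rigid systems. -/
theorem noeth [IsAlgClosed k] [CharZero k] {Q : MvPolynomial (Fin (n + 1)) k} {q : ℕ}
    (hQ : Q.IsHomogeneous q) (I0 : Ideal (MvPolynomial (Fin (n + 1)) k))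
    (hsys : ∀ p : Ideal (MvPolynomial (Fin (n + 1)) k), I0 ≤ p → ∀ _ : p.IsPrime, IsHomog p →
      Q ∉ p → (∃ j, X j ∉ p) → ∃ (J : Type z) (_ : Finite J) (s : J → ℕ) (E : EqSys p Q q s),
        E.Rigid) (I : Ideal (MvPolynomial (Fin (n + 1)) k)) (hI0 : I0 ≤ I) (hI : IsHomog I) :
    ∃ A : ℕ, ∀ (K : Type w) [Field K] [Algebra k K] [IsFF k K] (f : Fin (n + 1) → K),
      (∃ j, f j ≠ 0) → (∀ H ∈ I, aeval f H = 0) → aeval f Q ≠ 0 →
        pht k f ≤ A * max (canDeg k K + (meets (k := k) Q q f).ncard) 0 := by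
  classical
  induction I using WellFoundedGT.induction with
  | ind I ih =>
    -- each minimal prime
    have key : ∀ p ∈ I.minimalPrimes, ∃ A : ℕ, ∀ (K : Type w) [Field K] [Algebra k K] [IsFF k K]
        (f : Fin (n + 1) → K), (∃ j, f j ≠ 0) → (∀ H ∈ p, aeval f H = 0) → aeval f Q ≠ 0 →
        pht k f ≤ A * max (canDeg k K + (meets (k := k) Q q f).ncard) 0 := by
      intro p hp
      have hpp : p.IsPrime := hp.1.1
      have hIp : I ≤ p := hp.1.2
      have hph := isHomog_minimal hI hp
      by_cases hQp : Q ∈ p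
      · exact ⟨0, fun K _ _ _ f _ hf hfQ => absurd (hf Q hQp) hfQ⟩
      by_cases hx : ∃ j, X j ∉ p
      · obtain ⟨J, hJ, s, E, hE⟩ := hsys p (hI0.trans hIp) hpp hph hQp hx
        obtain ⟨d, G, hGd, hG, -, B, C, h⟩ := proj_homog.{u, u, w, z} (k := k) hph hQ hQp E hE hx
        have hlt : I < p ⊔ Ideal.span {G} := by
          refine lt_of_le_of_lt hIp (lt_of_le_of_ne le_sup_left ?_)
          intro heq
          apply hG
          rw [heq]
          exact (le_sup_right : Ideal.span {G} ≤ p ⊔ Ideal.span {G})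
            (Ideal.subset_span rfl)
        obtain ⟨A, hA⟩ := ih _ hlt (hI0.trans hlt.le) (isHomog_sup hph hGd)
        refine ⟨max A B, fun K _ _ _ f hf0 hf hfQ => ?_⟩
        have hm : (0 : ℤ) ≤ max (canDeg k K + (meets (k := k) Q q f).ncard) 0 := le_max_right _ _
        by_cases hfG : aeval f G = 0
        · refine (hA K f hf0 ?_ hfQ).trans (mul_le_mul_of_nonneg_right ?_ hm)
          · intro H hH
            obtain ⟨a, ha, b, hb, rfl⟩ := Submodule.mem_sup.1 hH
            obtain ⟨c, rfl⟩ := Ideal.mem_span_singleton'.1 hb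
            rw [map_add, map_mul, hf a ha, hfG, mul_zero, add_zero]
          · exact_mod_cast le_max_left A B
        · have h1 := h K f hf hfG
          have h2 : ∑ c ∈ C, hgt k (algebraMap k K c) = 0 :=
            Finset.sum_eq_zero fun c _ => hgt_algebraic (isAlgebraic_algebraMap c)
          rw [h2, mul_zero, add_zero, add_zero] at h1
          refine h1.trans (mul_le_mul_of_nonneg_right ?_ hm)
          exact_mod_cast le_max_right A B
      · push Not at hx
        refine ⟨0, fun K _ _ _ f hf0 hf hfQ => ?_⟩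
        obtain ⟨j, hj⟩ := hf0
        have := hf _ (hx j)
        rw [aeval_X] at this
        exact absurd this hj
    choose! A hA using key
    have hfin : I.minimalPrimes.Finite := Ideal.finite_minimalPrimes_of_isNoetherianRing _ I
    refine ⟨∑ p ∈ hfin.toFinset, A p, fun K _ _ _ f hf0 hf hfQ => ?_⟩
    have hker : (RingHom.ker (aeval f : MvPolynomial (Fin (n + 1)) k →ₐ[k] K)).IsPrime :=
      RingHom.ker_isPrime _
    obtain ⟨p, hp, hpf⟩ := Ideal.exists_minimalPrimes_le
      (I := I) (J := RingHom.ker (aeval f : MvPolynomial (Fin (n + 1)) k →ₐ[k] K))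
      (fun H hH => RingHom.mem_ker.2 (hf H hH))
    refine (hA p hp K f hf0 (fun H hH => RingHom.mem_ker.1 (hpf hH)) hfQ).trans
      (mul_le_mul_of_nonneg_right ?_ (le_max_right _ _))
    exact_mod_cast Finset.single_le_sum (f := A) (fun _ _ => Nat.zero_le _)
      ((Set.Finite.mem_toFinset hfin).2 hp)

end Pool.Agent.W603.CX
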